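import Pool.Agent.Y812.SS.Wr
import Pool.Agent.Y331.SS.Lim

/-!
# Contracting self-similar groups and their universal covers

`C` is any class of groups with the closure properties `Closed C`, all of which are known for the
class of the groups that satisfy the A-theoretic Farrell–Jones Conjecture with coefficients and
finite wreath products.

A self-similar group is a group `G` with a homomorphism `ψ : G → G ≀ Perm X`, `X` finite, such that
the action on the rooted tree `X^*` given by `ψ` is faithful.  It is contracting if there is a set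
`𝒩` (the nucleus) such that each element of `G` has all its sections at the words of length `n` in
`𝒩`, for some `n`.  For example the iterated monodromy groups of postcritically finite rational
functions are contracting.  The universal cover of `G` is the group with the generators `𝒩` and the
relations of length three between them; it is finitely presented if `𝒩` is finite.

Proof. Let `Γ` have a recursion which contracts to `𝒩` and is faithful on `𝒩`. An element of `Γ` which
acts trivially has sections at some level which are in `𝒩` and act trivially, hence are `1`. So the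
kernel of the action is the union of the kernels of the iterated recursions, and the quotient is the
directed colimit of subgroups of iterated wreath products of `Γ` with finite symmetric groups. The
recursion of `G` lifts to the universal cover, as the sections of a relation `a b = c` are relations
of the same form, and it contracts to the generators.
-/

set_option autoImplicit false

namespace Pool.Agent.Results.MP_59dd5b_al.ContractingCovers

open Pool.Agent.Y462.SS Pool.Agent.Y331.SS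

variable {X Γ G : Type} [Group Γ] [Group G]

/-- the section of `γ` at the word `v` -/
def sec (ψ : Γ →* Wr X Γ) : Γ → List X → Γ
  | γ, [] => γ
  | γ, x :: w => sec ψ ((ψ γ).s x) w

/-- For every `γ` there is a level at which all sections of `γ` are in `𝒩`. -/
def ContractsTo (ψ : Γ →* Wr X Γ) (𝒩 : Set Γ) : Prop :=
  ∀ γ : Γ, ∃ n : ℕ, ∀ v : List X, v.length = n → sec ψ γ v ∈ 𝒩

/-- The only element of `𝒩` which acts trivially on `X^*` is `1`. -/
def FaithfulOn (ψ : Γ →* Wr X Γ) (𝒩 : Set Γ) : Prop :=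
  ∀ γ ∈ 𝒩, (∀ w, act ψ γ w = w) → γ = 1

/-- `𝒩` is a nucleus of the self-similar group `G`: it generates `G`, is symmetric, contains `1` and
the sections of its elements, and the products of two elements have all sections at some level in
`𝒩`. -/
structure IsNucleus (ψ : G →* Wr X G) (𝒩 : Set G) : Prop where
  gen : Subgroup.closure 𝒩 = ⊤
  one : (1 : G) ∈ 𝒩
  inv : ∀ a ∈ 𝒩, a⁻¹ ∈ 𝒩
  sections : ∀ a ∈ 𝒩, ∀ x : X, (ψ a).s x ∈ 𝒩
  mul : ∀ a ∈ 𝒩, ∀ b ∈ 𝒩, ∃ n : ℕ, ∀ v : List X, v.length = n → sec ψ (a * b) v ∈ 𝒩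

/-- the relations `a b = c` between elements of `𝒩` -/
def rels (𝒩 : Set G) : Set (FreeGroup 𝒩) :=
  {r | ∃ a b c : 𝒩, (a : G) * b = c ∧ r = FreeGroup.of a * FreeGroup.of b * (FreeGroup.of c)⁻¹}

/-- the universal cover -/
abbrev Cover (𝒩 : Set G) : Type := PresentedGroup (rels 𝒩)

section A

theorem act_of_dies (ψ : Γ →* Wr X Γ) (γ : Γ) (h : Dies ψ γ) (w : List X) : act ψ γ w = w := by
  induction h generalizing w with
  | one =>
    induction w with
    | nil => rfl
    | cons x w ih =>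
      show (ψ 1).p x :: act ψ ((ψ 1).s x) w = _
      rw [map_one]
      simp only [Wr.one_p, Equiv.Perm.one_apply, Wr.one_s]
      rw [ih]
  | step γ h1 _ ih =>
    cases w with
    | nil => rfl
    | cons x w =>
      show (ψ γ).p x :: act ψ ((ψ γ).s x) w = _
      rw [ih x w, h1]
      rfl

theorem dies_of_act (ψ : Γ →* Wr X Γ) {𝒩 : Set Γ} (hf : FaithfulOn ψ 𝒩) (n : ℕ) :
    ∀ γ : Γ, (∀ v : List X, v.length = n → sec ψ γ v ∈ 𝒩) → (∀ w, act ψ γ w = w) → Dies ψ γ := by
  induction n with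
  | zero =>
    intro γ h1 h2
    rw [hf γ (h1 [] rfl) h2]
    exact Dies.one
  | succ n ih =>
    intro γ h1 h2
    apply Dies.step
    · ext x
      have h3 := h2 [x]
      have h4 : act ψ γ [x] = [(ψ γ).p x] := rfl
      rw [h4] at h3
      exact (List.cons.inj h3).1
    · intro x
      apply ih
      · intro v hv
        exact h1 (x :: v) (by simp [hv])
      · intro w
        have h3 : (ψ γ).p x :: act ψ ((ψ γ).s x) w = x :: w := h2 (x :: w)
        exact (List.cons.inj h3).2

theorem cover_closed (C : ∀ (G : Type) [Group G], Prop) (hC : Closed C) (hX : Finite X)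
    (ψ : Γ →* Wr X Γ) (hΓ : C Γ) {𝒩 : Set Γ} (hc : ContractsTo ψ 𝒩) (hf : FaithfulOn ψ 𝒩)
    (π : Γ →* G) (hπ : Function.Surjective π) (hk : ∀ γ, π γ = 1 ↔ ∀ w, act ψ γ w = w) : C G := by
  have h1 : C (Γ ⧸ π.ker) := by
    apply t_lim Pool.Agent.Y812.SS.t_wr C hC X Γ hX ψ hΓ
    intro γ
    rw [MonoidHom.mem_ker, hk]
    constructor
    · intro h
      obtain ⟨n, hn⟩ := hc γ
      exact dies_of_act ψ hf n γ hn h
    · intro h w
      exact act_of_dies ψ γ h w
  exact hC.of_injective G (Γ ⧸ π.ker)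
    (QuotientGroup.quotientKerEquivOfSurjective π hπ).symm.toMonoidHom
    (QuotientGroup.quotientKerEquivOfSurjective π hπ).symm.injective h1

end A

section B

theorem sec_append (ψ : Γ →* Wr X Γ) (v w : List X) : ∀ γ : Γ,
    sec ψ γ (v ++ w) = sec ψ (sec ψ γ v) w := by
  induction v with
  | nil => intro γ; rfl
  | cons x v ih => intro γ; exact ih _

theorem act_length (ψ : Γ →* Wr X Γ) (w : List X) : ∀ γ : Γ, (act ψ γ w).length = w.length := by
  induction w with
  | nil => intro γ; rfl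
  | cons x w ih =>
    intro γ
    show ((ψ γ).p x :: act ψ ((ψ γ).s x) w).length = _
    simp [ih]

theorem sec_mul (ψ : Γ →* Wr X Γ) (v : List X) : ∀ γ δ : Γ,
    sec ψ (γ * δ) v = sec ψ γ (act ψ δ v) * sec ψ δ v := by
  induction v with
  | nil => intro γ δ; rfl
  | cons x v ih =>
    intro γ δ
    show sec ψ ((ψ (γ * δ)).s x) v = sec ψ ((ψ γ).s ((ψ δ).p x)) (act ψ ((ψ δ).s x) v) *
      sec ψ ((ψ δ).s x) v
    rw [map_mul, Wr.mul_s, ih]

theorem act_one (ψ : Γ →* Wr X Γ) (w : List X) : act ψ 1 w = w :=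
  act_of_dies ψ 1 Dies.one w

variable {𝒩 : Set G}

theorem of_mul (a b c : 𝒩) (h : (a : G) * b = c) :
    (PresentedGroup.of a * PresentedGroup.of b : Cover 𝒩) = PresentedGroup.of c := by
  have h1 : (PresentedGroup.mk (rels 𝒩) (FreeGroup.of a * FreeGroup.of b * (FreeGroup.of c)⁻¹)) =
      1 := PresentedGroup.one_of_mem ⟨a, b, c, h, rfl⟩
  rw [map_mul, map_mul, map_inv, mul_inv_eq_one] at h1
  exact h1

/-- the recursion on the cover, on generators -/
def F (ψ : G →* Wr X G) (h : IsNucleus ψ 𝒩) (a : 𝒩) : Wr X (Cover 𝒩) :=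
  ⟨fun x => PresentedGroup.of ⟨(ψ a).s x, h.sections a.1 a.2 x⟩, (ψ a).p⟩

theorem F_mul (ψ : G →* Wr X G) (h : IsNucleus ψ 𝒩) (a b c : 𝒩) (habc : (a : G) * b = c) :
    F ψ h a * F ψ h b = F ψ h c := by
  apply Wr.ext
  · funext x
    show (PresentedGroup.of ⟨(ψ a).s ((ψ b).p x), _⟩ * PresentedGroup.of ⟨(ψ b).s x, _⟩ :
      Cover 𝒩) = PresentedGroup.of ⟨(ψ c).s x, _⟩
    apply of_mul
    show (ψ a).s ((ψ b).p x) * (ψ b).s x = (ψ c).s x
    rw [← habc, map_mul, Wr.mul_s]
  · show (ψ a).p * (ψ b).p = (ψ c).p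
    rw [← habc, map_mul, Wr.mul_p]

/-- the recursion on the cover -/
noncomputable def lift (ψ : G →* Wr X G) (h : IsNucleus ψ 𝒩) : Cover 𝒩 →* Wr X (Cover 𝒩) :=
  PresentedGroup.toGroup (f := F ψ h) (by
    rintro r ⟨a, b, c, habc, rfl⟩
    rw [map_mul, map_mul, map_inv, FreeGroup.lift_apply_of, FreeGroup.lift_apply_of,
      FreeGroup.lift_apply_of, F_mul ψ h a b c habc, mul_inv_cancel])

theorem lift_of (ψ : G →* Wr X G) (h : IsNucleus ψ 𝒩) (a : 𝒩) :
    lift ψ h (PresentedGroup.of a) = F ψ h a := PresentedGroup.toGroup.of _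

/-- the projection -/
noncomputable def proj (𝒩 : Set G) : Cover 𝒩 →* G :=
  PresentedGroup.toGroup (f := fun a : 𝒩 => (a : G)) (by
    rintro r ⟨a, b, c, habc, rfl⟩
    rw [map_mul, map_mul, map_inv, FreeGroup.lift_apply_of, FreeGroup.lift_apply_of,
      FreeGroup.lift_apply_of, habc, mul_inv_cancel])

theorem proj_of (a : 𝒩) : proj 𝒩 (PresentedGroup.of a) = a := PresentedGroup.toGroup.of _

theorem proj_surjective (ψ : G →* Wr X G) (h : IsNucleus ψ 𝒩) :
    Function.Surjective (proj 𝒩) := by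
  rw [← MonoidHom.range_eq_top, eq_top_iff, ← h.gen, Subgroup.closure_le]
  intro a ha
  exact ⟨PresentedGroup.of ⟨a, ha⟩, proj_of _⟩

theorem wmap_lift (ψ : G →* Wr X G) (h : IsNucleus ψ 𝒩) (γ : Cover 𝒩) :
    wmap (proj 𝒩) (lift ψ h γ) = ψ (proj 𝒩 γ) := by
  have h1 : (wmap (proj 𝒩)).comp (lift ψ h) = ψ.comp (proj 𝒩) := by
    apply PresentedGroup.ext
    intro a
    show wmap (proj 𝒩) (lift ψ h (PresentedGroup.of a)) = ψ (proj 𝒩 (PresentedGroup.of a))
    rw [lift_of, proj_of]
    apply Wr.ext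
    · funext x
      show proj 𝒩 (PresentedGroup.of ⟨(ψ a).s x, _⟩) = _
      rw [proj_of]
    · rfl
  exact DFunLike.congr_fun h1 γ

theorem act_lift (ψ : G →* Wr X G) (h : IsNucleus ψ 𝒩) (w : List X) : ∀ γ : Cover 𝒩,
    act (lift ψ h) γ w = act ψ (proj 𝒩 γ) w := by
  induction w with
  | nil => intro γ; rfl
  | cons x w ih =>
    intro γ
    show (lift ψ h γ).p x :: act (lift ψ h) ((lift ψ h γ).s x) w =
      (ψ (proj 𝒩 γ)).p x :: act ψ ((ψ (proj 𝒩 γ)).s x) w
    rw [ih, ← wmap_lift ψ h γ, wmap_p, wmap_s]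

theorem of_one (h1 : (1 : G) ∈ 𝒩) : (PresentedGroup.of ⟨1, h1⟩ : Cover 𝒩) = 1 := by
  have h2 := of_mul (⟨1, h1⟩ : 𝒩) ⟨1, h1⟩ ⟨1, h1⟩ (one_mul 1)
  exact mul_eq_left.1 h2

/-- all sections at the level `n` are generators -/
def Lev (ψ : G →* Wr X G) (h : IsNucleus ψ 𝒩) (n : ℕ) (γ : Cover 𝒩) : Prop :=
  ∀ v : List X, v.length = n → sec (lift ψ h) γ v ∈ Set.range (PresentedGroup.of (rels := rels 𝒩))

theorem Lev.succ {ψ : G →* Wr X G} {h : IsNucleus ψ 𝒩} {n : ℕ} {γ : Cover 𝒩} (hγ : Lev ψ h n γ) :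
    Lev ψ h (n + 1) γ := by
  intro v hv
  rcases List.eq_nil_or_concat' v with rfl | ⟨v', x, rfl⟩
  · simp at hv
  · rw [List.length_append, List.length_singleton, Nat.add_right_cancel_iff] at hv
    obtain ⟨a, ha⟩ := hγ v' hv
    rw [sec_append, ← ha]
    refine ⟨⟨(ψ a).s x, h.sections a.1 a.2 x⟩, ?_⟩
    show _ = (lift ψ h (PresentedGroup.of a)).s x
    rw [lift_of]
    rfl

theorem Lev.mono {ψ : G →* Wr X G} {h : IsNucleus ψ 𝒩} {n m : ℕ} (hnm : n ≤ m) {γ : Cover 𝒩}
    (hγ : Lev ψ h n γ) : Lev ψ h m γ := by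
  induction m, hnm using Nat.le_induction with
  | base => exact hγ
  | succ m _ ih => exact ih.succ

theorem Lev.mul_of {ψ : G →* Wr X G} (h : IsNucleus ψ 𝒩) (a b : 𝒩) :
    ∃ n : ℕ, Lev ψ h n (PresentedGroup.of a * PresentedGroup.of b) := by
  obtain ⟨n, hn⟩ := h.mul a.1 a.2 b.1 b.2
  refine ⟨n, fun v hv => ?_⟩
  have h1 : ∀ (c : 𝒩) (w : List X), ∃ d : 𝒩, sec (lift ψ h) (PresentedGroup.of c) w =
      PresentedGroup.of d ∧ sec ψ (c : G) w = d := by
    intro c w
    induction w generalizing c with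
    | nil => exact ⟨c, rfl, rfl⟩
    | cons x w ih =>
      obtain ⟨d, h2, h3⟩ := ih ⟨(ψ c).s x, h.sections c.1 c.2 x⟩
      refine ⟨d, ?_, h3⟩
      rw [← h2]
      show sec (lift ψ h) ((lift ψ h (PresentedGroup.of c)).s x) w = _
      rw [lift_of]
      rfl
  rw [sec_mul]
  obtain ⟨d, h2, h3⟩ := h1 a (act (lift ψ h) (PresentedGroup.of b) v)
  obtain ⟨e, h4, h5⟩ := h1 b v
  have h6 := hn v hv
  rw [sec_mul] at h6
  have h7 : act (lift ψ h) (PresentedGroup.of b) v = act ψ (b : G) v := by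
    rw [act_lift, proj_of]
  rw [← h7, h3, h5] at h6
  rw [h2, h4]
  exact ⟨⟨_, h6⟩, (of_mul d e ⟨_, h6⟩ rfl).symm⟩

theorem Lev.mul [Finite X] {ψ : G →* Wr X G} (h : IsNucleus ψ 𝒩) {γ δ : Cover 𝒩}
    (hγ : ∃ n, Lev ψ h n γ) (hδ : ∃ n, Lev ψ h n δ) : ∃ n, Lev ψ h n (γ * δ) := by
  obtain ⟨n, hn⟩ := hγ
  obtain ⟨m, hm⟩ := hδ
  have hn' := hn.mono (le_max_left n m)
  have hm' := hm.mono (le_max_right n m)
  set N := max n m
  have h1 : ∀ v : List X, ∃ k : ℕ, v.length = N → Lev ψ h k (sec (lift ψ h) (γ * δ) v) := by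
    intro v
    by_cases hv : v.length = N
    · obtain ⟨a, ha⟩ := hn' (act (lift ψ h) δ v) (by rw [act_length, hv])
      obtain ⟨b, hb⟩ := hm' v hv
      obtain ⟨k, hk⟩ := Lev.mul_of h a b
      refine ⟨k, fun _ => ?_⟩
      rw [sec_mul, ← ha, ← hb]
      exact hk
    · exact ⟨0, fun hc => absurd hc hv⟩
  choose k hk using h1
  obtain ⟨K, hK⟩ := ((List.finite_length_eq X N).image k).bddAbove
  refine ⟨N + K, fun v hv => ?_⟩
  have h2 : v = v.take N ++ v.drop N := (List.take_append_drop N v).symm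
  have h3 : (v.take N).length = N := by
    rw [List.length_take]
    omega
  have h4 : (v.drop N).length = K := by
    rw [List.length_drop]
    omega
  rw [h2, sec_append]
  exact ((hk (v.take N) h3).mono (hK ⟨v.take N, h3, rfl⟩)) _ h4

theorem lev_all [Finite X] {ψ : G →* Wr X G} (h : IsNucleus ψ 𝒩) (γ : Cover 𝒩) :
    ∃ n, Lev ψ h n γ := by
  have hof : ∀ a : 𝒩, ∃ n, Lev ψ h n (PresentedGroup.of a) := fun a => ⟨0, fun v hv => by
    rw [List.length_eq_zero_iff.1 hv]
    exact ⟨a, rfl⟩⟩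
  obtain ⟨w, rfl⟩ := PresentedGroup.mk_surjective _ γ
  induction w using FreeGroup.induction_on with
  | C1 =>
    rw [map_one, ← of_one h.one]
    exact hof _
  | of a => exact hof a
  | inv_of a _ =>
    have h1 : (PresentedGroup.mk (rels 𝒩) (FreeGroup.of a)⁻¹) =
        PresentedGroup.of ⟨(a : G)⁻¹, h.inv a.1 a.2⟩ := by
      rw [map_inv]
      apply inv_eq_of_mul_eq_one_right
      have h2 := of_mul a ⟨(a : G)⁻¹, h.inv a.1 a.2⟩ ⟨1, h.one⟩ (mul_inv_cancel _)
      rw [of_one] at h2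
      exact h2
    rw [h1]
    exact hof _
  | mul x y hx hy =>
    rw [map_mul]
    exact Lev.mul h hx hy

theorem universal_closed (C : ∀ (G : Type) [Group G], Prop) (hC : Closed C) (hX : Finite X)
    (ψ : G →* Wr X G) (hψ : ∀ g, (∀ w, act ψ g w = w) → g = 1) (h : IsNucleus ψ 𝒩)
    (hN : C (Cover 𝒩)) : C G := by
  refine cover_closed C hC hX (lift ψ h) hN (𝒩 := Set.range (PresentedGroup.of (rels := rels 𝒩)))
    (lev_all h) ?_ (proj 𝒩) (proj_surjective ψ h) ?_
  · rintro _ ⟨a, rfl⟩ ha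
    have h1 : (a : G) = 1 := by
      apply hψ
      intro w
      have h2 := ha w
      rw [act_lift, proj_of] at h2
      exact h2
    have h2 : a = ⟨1, h.one⟩ := Subtype.ext h1
    rw [h2, of_one]
  · intro γ
    constructor
    · intro h1 w
      rw [act_lift, h1, act_one]
    · intro h1
      apply hψ
      intro w
      rw [← act_lift ψ h]
      exact h1 w

end B

/-- Let `C` be a class of groups with the closure properties `Closed C` and `X` a finite set.
(1) Let `Γ` be a group of `C` with a recursion `ψ : Γ → Γ ≀ Perm X` which contracts to a set `𝒩` on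
which the action on `X^*` is faithful. Then every group `G` onto which `Γ` maps such that the kernel
is the kernel of the action on `X^*` (the self-similar group defined by `ψ`) is in `C`.
(2) Let `G` be a self-similar group with nucleus `𝒩`. If the universal cover of `G`, that is the
group with generators `𝒩` and the relations `a b = c` between elements of `𝒩` which hold in `G`, is
in `C`, then so is `G`. -/
theorem result (C : ∀ (G : Type) [Group G], Prop) (hC : Closed C) (X : Type) (hX : Finite X) :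
    (∀ (Γ : Type) [Group Γ] (ψ : Γ →* Wr X Γ) (𝒩 : Set Γ), C Γ → ContractsTo ψ 𝒩 →
      FaithfulOn ψ 𝒩 → ∀ (G : Type) [Group G] (π : Γ →* G), Function.Surjective π →
        (∀ γ, π γ = 1 ↔ ∀ w, act ψ γ w = w) → C G) ∧
    ∀ (G : Type) [Group G] (ψ : G →* Wr X G) (𝒩 : Set G),
      (∀ g, (∀ w, act ψ g w = w) → g = 1) → IsNucleus ψ 𝒩 → C (Cover 𝒩) → C G :=
  ⟨fun _ _ ψ _ hΓ hc hf _ _ π hπ hk => cover_closed C hC hX ψ hΓ hc hf π hπ hk,
    fun _ _ ψ _ hψ h hN => universal_closed C hC hX ψ hψ h hN⟩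

end Pool.Agent.Results.MP_59dd5b_al.ContractingCovers
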