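import Pool.Agent.H106FJ.Inf

/-!
# Farrell–Jones type classes: groups acting on rooted trees of infinite valency

`C` is any class of groups with the closure properties `Closed C` and `ExtClosed C`, all of which are
known for the class of the groups that satisfy the A-theoretic Farrell–Jones conjecture with
coefficients and finite wreath products.  `X` is an arbitrary set of letters, finite or infinite.

Let `G n` be a sequence of groups in `C` with recursions `ψ n : G n → G (n + 1) ≀ Perm X` (sections
and a permutation of the letters) such that the groups of the permutations of the letters are in `C`,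
the elements fixing all letters have only finitely many nontrivial sections, each element is brought by
the recursion into sets `𝒩 n`, and only `1 ∈ 𝒩 n` acts trivially on the words.  Then the group of
automorphisms of the tree of words defined by `G 0` is in `C`.
-/

set_option autoImplicit false

namespace Pool.Agent.Results.MP_59dd5b_al.InfiniteAlphabets

open Pool.Agent.Y462.SS Pool.Agent.Q152.WP Pool.Agent.H106FJ

/-- Contracting recursions over an arbitrary alphabet. -/
def Recursions (C : ∀ (G : Type) [Group G], Prop) : Prop :=
  ∀ (X : Type) (G : ℕ → Type) [∀ n, Group (G n)] (ψ : ∀ n, G n →* Wr X (G (n + 1)))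
    (𝒩 : ∀ n, Set (G n)), (∀ n, C (G n)) → (∀ n, C (prm ψ n).range) → FinSupp ψ →
    (∀ n γ, ContN ψ 𝒩 n γ) → FaithfulN ψ 𝒩 →
      ∀ (L : Type) [Group L] (π : G 0 →* L), Function.Surjective π →
        (∀ γ, π γ = 1 ↔ ∀ w, actN ψ 0 γ w = w) → C L

theorem result (C : ∀ (G : Type) [Group G], Prop) (hC : Closed C) (hE : ExtClosed C) :
    Recursions C :=
  fun _ _ _ ψ _ hG hp hs hc hf _ _ π hπ hk => contF ψ hC hE hs hp hG hc hf π hπ hk

end Pool.Agent.Results.MP_59dd5b_al.InfiniteAlphabets
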