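import Pool.Agent.Q152.FI.Local
import Pool.Agent.Q152.FI.Verbal

/-!
# Kernels on which the quotient acts locally by inner automorphisms and injections

`Closed C` (`Pool.Agent.Y462.SS.Base`): the class `C` of groups contains `ℤ` and is closed under
groups that embed, finite products, free products, overgroups of finite index and colimits of directed
systems.  `ExtClosed C`: if `G` maps onto a group `Q` of `C`, and the kernel and the preimages of all
infinite cyclic subgroups of `Q` are in `C`, then `G` is in `C`.  These properties are known for the
class of the groups which satisfy the fibered isomorphism conjecture in `A`-theory with respect to the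
virtually cyclic subgroups together with their wreath products with finite groups.

`FIGroup`: a functor `Φ` from the category of sets and injections to the category of groups which
commutes with unions of directed families of sets, for example a direct power, a free power, the
finitary symmetric group, the finitary monomial group of `P` (the restricted wreath product of `P` and
the finitary symmetric group), the stable linear group over a ring, a stable congruence subgroup.

`LocAct ι g`: for each finite subset `S` of `X` the conjugation by `g` is on `Φ(S)` the composition of
the homomorphism `Φ(j)` of an injection `j : S → X` and an inner automorphism of `Φ(X)`; both may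
depend on `S`.

Proof.  Over an infinite cyclic subgroup of the quotient the extension is a directed colimit of HNN
extensions with base group `Φ(S)`, `S` finite, in which the stable letter acts on `Φ(S₀)`, `S₀ ⊆ S`, as
`Φ(j)`, `j : S₀ → S`, and an inner automorphism by `y` in `Φ(S)`.  With a permutation `π` of finite order
which extends `j` this HNN extension has a homomorphism to `Φ(X) ⋊ ⟨π⟩` (stable letter to `y π`) which is
injective on the base group.
-/

set_option autoImplicit false

namespace Pool.Agent.Results.MP_59dd5b_al.LocalActions

open Pool.Agent.Y462.SS Pool.Agent.Q152.WP Pool.Agent.Q152.FI FIGroup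

/-- Let `C` be a class of groups with the closure properties `Closed C` and `ExtClosed C`, let `Φ` be an
FI-group whose values on the finite sets are in `C`, and `X` a set.
(1) Let `ι` be an isomorphism of `Φ(X)` with the kernel of a homomorphism of `G` onto a group `Q` of
`C`.  Suppose that each element of infinite order of `Q` is the image of an element of `G` which acts on
`Φ(X)` locally as an injection of sets followed by an inner automorphism.  Then `G` is in `C`.
(2) If a group `H` of `C` acts on `Φ(X)` by such automorphisms, then `Φ(X) ⋊ H` is in `C`. -/
theorem result (C : ∀ (G : Type) [Group G], Prop) (hC : Closed C) (hE : ExtClosed C)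
    (Φ : FIGroup) (hΦ : ∀ n : ℕ, C (Φ.obj (Fin n))) (X : Type) :
    (∀ (G Q : Type) [Group G] [Group Q] (f : G →* Q) (ι : Φ.obj X →* G),
      Function.Surjective f → C Q → Function.Injective ι → ι.range = f.ker →
      (∀ q : Q, ¬ IsOfFinOrder q → ∃ g : G, f g = q ∧ LocAct ι g) → C G) ∧
    (∀ (H : Type) [Group H] (φ : H →* MulAut (Φ.obj X)), C H →
      (∀ (h : H) (S : Finset X), ∃ (y : Φ.obj X) (j : S ↪ X), ∀ a : Φ.obj S,
        φ h (Φ.map (emb S) a) = y * Φ.map j a * y⁻¹) → C (Φ.obj X ⋊[φ] H)) := by
  refine ⟨?_, ?_⟩
  · intro G Q _ _ f ι hf hQ hι hr h
    exact kernel_local hC hE hΦ f hf hQ hι hr h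
  · intro H _ φ hH h
    refine kernel_local (Φ := Φ) (X := X) (ι := SemidirectProduct.inl) hC hE hΦ
      SemidirectProduct.rightHom SemidirectProduct.rightHom_surjective hH
      SemidirectProduct.inl_injective (SemidirectProduct.range_inl_eq_ker_rightHom) ?_
    intro q _
    refine ⟨SemidirectProduct.inr q, SemidirectProduct.rightHom_inr _, fun S => ?_⟩
    obtain ⟨y, j, hyj⟩ := h q S
    refine ⟨y, j, fun a => ?_⟩
    have h2 := SemidirectProduct.inl_aut (φ := φ) q (Φ.map (emb S) a)
    rw [map_inv] at h2
    rw [← h2, hyj]

end Pool.Agent.Results.MP_59dd5b_al.LocalActions
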