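import Pool.Agent.Q105.FJ.TriGF

/-!
# Mapping tori of triangular automorphisms of graph products

`Closed C` (`Pool.Agent.Y462.SS.Base`): the class `C` of groups contains `ℤ` and is closed under
groups that embed, finite products, free products, overgroups of finite index and colimits of directed
systems with arbitrary structure maps.  `ExtClosed C` (`Pool.Agent.Q152.WP.Perm`): if `G` maps onto a
group `Q` of `C`, and the kernel and the preimages of all infinite cyclic subgroups of `Q` are in `C`,
then `G` is in `C`.  These properties are known for the class of the groups which satisfy the fibered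
isomorphism conjecture in `A`-theory with respect to the virtually cyclic subgroups together with their
wreath products with finite groups.

`MT N α` is the mapping torus of the automorphism `α` of `N`, i.e. the semidirect product of `N` and
`ℤ`.  `IsGP Λ H`: the group `N` is the internal graph product of its subgroups `H v` over the graph `Λ`
on the well-ordered set `V`.  `hs H S` is the subgroup generated by the `H v` with `v` in `S`, and
`lk Λ v` the set of the vertices before `v` which are adjacent to `v`.

Outline of the proof.  Let `A` be the subgroup of the vertices before `v` and `L` the subgroup of the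
vertices of `lk Λ v`.  The mapping torus of the restriction of `α` to the subgroup of the vertices up to
`v` is the amalgamated product of the mapping torus of the restriction to `A` and the mapping torus of
the automorphism `(l, p) ↦ (w⁻¹ α(l) w, β(p))` of `L × H v` over the mapping torus of `L` (stable letter
`w⁻¹ t`).  It has a retraction onto the first factor, which is injective on the edge group, hence it is
in the class (by the team's theorem `MP_2a0850_gt/EdgeInjective`).  For a vertex of the second kind one
has an HNN extension over `ℤ`.  At limits one takes unions.
-/

set_option autoImplicit false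

namespace Pool.Agent.Results.MP_59dd5b_al.TriangularGraphProducts

open Pool.Agent.Y462.SS Pool.Agent.Q152.WP Pool.Agent.Q105.FJ

/-- The automorphism `α` of the internal graph product `N` of the subgroups `H v` is triangular: for
every `v` either `VKindA`: `α(p) = w β(p) w⁻¹` for `p ∈ H v`, with `w` in the subgroup of the vertices
before `v` and `β` an automorphism of `H v` with mapping torus in `C`, and `l ↦ w⁻¹ α(l) w` preserves the
subgroup of `lk Λ v`, or `VKindB`: `lk Λ v` is empty, `H v` is infinite cyclic with generator `x` and
`α(x) = u x w` with `u`, `w` in the subgroup of the vertices before `v`. -/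
def Triangular (C : ∀ (G : Type) [Group G], Prop) {V N : Type} [LinearOrder V] [Group N]
    (Λ : SimpleGraph V) (H : V → Subgroup N) (α : MulAut N) : Prop :=
  IsGP Λ H ∧ ∀ v, VKindA Λ α C H v ∨ VKindB Λ α H v

/-- The mapping tori of triangular automorphisms are in `C`. -/
def Tori (C : ∀ (G : Type) [Group G], Prop) : Prop :=
  ∀ (V N : Type) [LinearOrder V] [WellFoundedLT V] [Group N] (Λ : SimpleGraph V)
    (H : V → Subgroup N) (α : MulAut N), Triangular C Λ H α → C (MT N α)

/-- Some positive power of the conjugation by `g` is a triangular automorphism of `K`, with respect to
some decomposition of `K` as a graph product over a graph with well-ordered vertex set. -/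
def PowerTriangular (C : ∀ (G : Type) [Group G], Prop) {G : Type} [Group G] (K : Subgroup G)
    (g : G) : Prop :=
  ∃ k : ℕ, 0 < k ∧ ∃ (V : Type) (_ : LinearOrder V) (_ : WellFoundedLT V) (Λ : SimpleGraph V)
    (H : V → Subgroup K) (α : MulAut K), Triangular C Λ H α ∧
      ∀ x : K, (α x : G) = g ^ k * x * (g ^ k)⁻¹

/-- Extensions such that the elements of infinite order of the quotient act by automorphisms with a
triangular power. -/
def Extensions (C : ∀ (G : Type) [Group G], Prop) : Prop :=
  ∀ (G Q : Type) [Group G] [Group Q] (f : G →* Q), Function.Surjective f → C Q → C f.ker →
    (∀ g : G, ¬ IsOfFinOrder (f g) → PowerTriangular C f.ker g) → C G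

/-- **Mapping tori of triangular automorphisms of graph products.** -/
theorem result (C : ∀ (G : Type) [Group G], Prop) (hC : Closed C) (hE : ExtClosed C) :
    Tori C ∧ Extensions C := by
  refine ⟨fun V N _ _ _ Λ H α h => gtri_mem Λ α h.2 h.1 hC hE, fun G Q _ _ f hf hQ hK h =>
    root_kernel hC hE f hf hQ hK fun g hg E => ?_⟩
  obtain ⟨k, hk, V, _, _, Λ, H, α, hα, he⟩ := h g hg
  obtain ⟨k, rfl⟩ := Nat.exists_eq_succ_of_ne_zero hk.ne'
  exact ⟨k, α, gtri_mem Λ α hα.2 hα.1 hC hE, fun x _ => he x⟩

end Pool.Agent.Results.MP_59dd5b_al.TriangularGraphProducts
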